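import Pool.Agent.MP_fcd29e_an.H81.Spec

/-! Row E3: the pointwise inequality. -/

set_option autoImplicit false

open Pool.Agent.MP_fcd29e_an.H81 MeasureTheory Complex Set Filter Topology Metric
open scoped ContDiff ComplexConjugate ENNReal NNReal

namespace Pool.Agent.MP_fcd29e_an.H40

noncomputable section

variable {N : ℕ}

section fields
variable {l : Fin N → E N → ℂ} {g : E N → ℂ} {z : E N}

theorem cd_Lf (hl : ∀ j, ContDiffAt ℝ ∞ (l j) z) (hg : ContDiffAt ℝ ∞ g z) :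
    ContDiffAt ℝ ∞ (Lf l g) z :=
  ContDiffAt.sum fun j _ => (hl j).mul (contDiffAt_dz j hg)

theorem cd_Lb (hl : ∀ j, ContDiffAt ℝ ∞ (l j) z) (hg : ContDiffAt ℝ ∞ g z) :
    ContDiffAt ℝ ∞ (Lb l g) z :=
  ContDiffAt.sum fun j _ => (contDiffAt_conj (hl j)).mul (contDiffAt_dzb j hg)

theorem cd_dv (hl : ∀ j, ContDiffAt ℝ ∞ (l j) z) : ContDiffAt ℝ ∞ (dv l) z :=
  ContDiffAt.sum fun j _ => contDiffAt_dz j (hl j)

theorem Lb_sum_mul {u v : Fin N → E N → ℂ} (hu : ∀ k, DifferentiableAt ℝ (u k) z)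
    (hv : ∀ k, DifferentiableAt ℝ (v k) z) :
    Lb l (fun y => ∑ k, u k y * v k y) z =
      ∑ k, Lb l (u k) z * v k z + ∑ k, u k z * Lb l (v k) z := by
  simp only [Lb]
  rw [← Finset.sum_add_distrib]
  simp only [dzb_sum _ _ fun k _ => (hu k).fun_mul (hv k), dzb_mul _ (hu _) (hv _), Finset.mul_sum,
    Finset.sum_mul, ← Finset.sum_add_distrib]
  rw [Finset.sum_comm]
  exact Finset.sum_congr rfl fun _ _ => Finset.sum_congr rfl fun _ _ => by ring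

theorem Lb_zero (h : ∀ᶠ y in 𝓝 z, g y = 0) : Lb l g z = 0 := by
  have : g =ᶠ[𝓝 z] fun _ => 0 := h
  simp [Lb, dzb_congr this]

theorem Lb_hess (hg : ContDiffAt ℝ ∞ g z) :
    ∑ k, l k z * Lb l (dz k g) z = hess g z fun j => l j z := by
  simp only [Lb, hess, Finset.mul_sum, dz_dzb_comm _ _ hg]
  exact Finset.sum_congr rfl fun _ _ => Finset.sum_congr rfl fun _ _ => by ring

theorem Lb_coord (k : Fin N) : Lb l (fun y : E N => conj (y k)) z = conj (l k z) := by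
  simp [Lb, dzb_coord_conj]

theorem Lb_sigma {φ : E N → ℂ} (t : ℂ) (hl : ∀ j, ContDiffAt ℝ ∞ (l j) z)
    (hφ : ContDiffAt ℝ ∞ φ z) :
    Lb l (fun y => dv l y + t * Lf l φ y) z =
      Lb l (dv l) z + t * (∑ j, Lb l (l j) z * dz j φ z + hess φ z fun j => l j z) := by
  have h1 := ContDiffAt.da (cd_dv hl)
  have h2 := ContDiffAt.da (cd_Lf hl hφ)
  have h3 : Lb l (Lf l φ) z = ∑ j, Lb l (l j) z * dz j φ z + hess φ z fun j => l j z := by
    rw [← Lb_hess hφ]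
    exact Lb_sum_mul (fun k => ContDiffAt.da (hl k)) fun k => ContDiffAt.da (contDiffAt_dz k hφ)
  rw [← h3]
  simp only [Lb, dzb_add _ h1 (h2.const_mul t), dzb_const_mul _ _ h2, Finset.mul_sum,
    ← Finset.sum_add_distrib]
  exact Finset.sum_congr rfl fun _ _ => by ring

end fields

/-- The sum of the commutator coefficients. -/
def Zc (ρ : E N → ℝ) (k : Fin N) (z : E N) : ℂ := ∑ c, Lb (lc ρ c) (lc ρ c k) z

/-- The zero order coefficient. -/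
def Bc (ρ : E N → ℝ) (z : E N) : ℂ :=
  ∑ k, Zc ρ k z * dv (lc ρ k) z - ∑ c, Lb (lc ρ c) (dv (lc ρ c)) z -
    ∑ j, dz j (fun y => nn ρ j y * (trH ρ ρ y : ℝ)) z

/-- The bound of the error terms. -/
def Gc (ρ : E N → ℝ) (z : E N) : ℝ :=
  ∑ k, (2 * ‖Zc ρ k z‖ ^ 2 + ‖(trH ρ ρ z : ℂ) * nn ρ k z‖ ^ 2) + ‖Bc ρ z‖

theorem split (ρ : E N → ℝ) (z : E N) (Z g : Fin N → ℂ) :
    ∑ j, Z j * g j = ∑ k, Z k * ∑ j, PP ρ z j k * g j +
      (∑ k, conj (z k) * Z k) / (‖z‖ ^ 2 : ℝ) * ∑ j, z j * g j +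
      (∑ k, dz k (cx ρ) z * Z k) * ∑ j, nn ρ j z * g j := by
  rw [Finset.sum_div, Finset.sum_mul, Finset.sum_mul, ← Finset.sum_add_distrib,
    ← Finset.sum_add_distrib]
  refine Finset.sum_congr rfl fun k _ => ?_
  have : Z k * g k = ∑ j, Z k * ((if j = k then 1 else 0) * g j) := by simp
  rw [this, Finset.mul_sum, Finset.mul_sum, Finset.mul_sum, ← Finset.sum_add_distrib,
    ← Finset.sum_add_distrib]
  refine Finset.sum_congr rfl fun j _ => ?_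
  simp only [PP, nn]
  ring

theorem dz_Wt {f κ : ℝ → ℝ} (t : ℝ) {ρ φ : E N → ℝ} {z : E N} (hρ : DifferentiableAt ℝ ρ z)
    (hφ : DifferentiableAt ℝ φ z) (hf : DifferentiableAt ℝ f (ρ z))
    (hκ : DifferentiableAt ℝ κ (‖z‖ ^ 2)) :
    DifferentiableAt ℝ (Wt f κ t ρ φ) z ∧ ∀ j, dz j (cx (Wt f κ t ρ φ)) z =
      (deriv f (ρ z) * κ (‖z‖ ^ 2) * Real.exp (t * φ z) : ℝ) * dz j (cx ρ) z +
      (f (ρ z) * deriv κ (‖z‖ ^ 2) * Real.exp (t * φ z) : ℝ) * conj (z j) +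
      t * dz j (cx φ) z * Wt f κ t ρ φ z := by
  have hn : DifferentiableAt ℝ (fun w : E N => ‖w‖ ^ 2) z :=
    ((contDiff_norm_sq ℝ (n := 1)).differentiable (by simp)) z
  have he : HasDerivAt (fun s => Real.exp (t * s)) (Real.exp (t * φ z) * t) (φ z) := by
    simpa using ((hasDerivAt_id (φ z)).const_mul t).exp
  have d1 : DifferentiableAt ℝ (fun w => f (ρ w)) z := hf.comp z hρ
  have d2 : DifferentiableAt ℝ (fun w : E N => κ (‖w‖ ^ 2)) z := hκ.comp z hn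
  have d3 : DifferentiableAt ℝ (fun w => Real.exp (t * φ w)) z := he.differentiableAt.comp z hφ
  have c1 : DifferentiableAt ℝ (cx fun w => f (ρ w)) z := ofRealCLM.differentiableAt.comp z d1
  have c2 : DifferentiableAt ℝ (cx fun w : E N => κ (‖w‖ ^ 2)) z :=
    ofRealCLM.differentiableAt.comp z d2
  have c3 : DifferentiableAt ℝ (cx fun w => Real.exp (t * φ w)) z :=
    ofRealCLM.differentiableAt.comp z d3
  refine ⟨(d1.fun_mul d2).fun_mul d3, fun j => ?_⟩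
  have e : cx (Wt f κ t ρ φ) = fun y => (cx fun w => f (ρ w)) y *
      (cx fun w : E N => κ (‖w‖ ^ 2)) y * (cx fun w => Real.exp (t * φ w)) y := by
    funext y; simp only [cx, Wt, ofReal_mul]
  rw [e, dz_mul j (c1.fun_mul c2) c3, dz_mul j c1 c2, dz_comp_real j hρ hf.hasDerivAt,
    dz_comp_real j hn hκ.hasDerivAt, dz_comp_real (χ := fun s => Real.exp (t * s)) j hφ he,
    dz_normSq]
  simp only [cx, Wt, ofReal_mul]
  ring

theorem re_le (a b : ℂ) : (a * b).re ≤ ‖a‖ ^ 2 + ‖b‖ ^ 2 := by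
  have h1 := re_le_norm (a * b)
  rw [norm_mul] at h1
  nlinarith [sq_nonneg (‖a‖ - ‖b‖), norm_nonneg a, norm_nonneg b]

theorem sq_le (x y : Fin N → ℂ) (hx : ∀ j, ‖x j‖ ≤ 1) :
    ‖∑ j, conj (x j) * y j‖ ^ 2 ≤ N * ∑ j, ‖y j‖ ^ 2 := by
  have h1 : ‖∑ j, conj (x j) * y j‖ ≤ ∑ j, ‖y j‖ := by
    refine (norm_sum_le _ _).trans (Finset.sum_le_sum fun j _ => ?_)
    rw [norm_mul, RCLike.norm_conj]
    exact mul_le_of_le_one_left (norm_nonneg _) (hx j)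
  refine (pow_le_pow_left₀ (norm_nonneg _) h1 2).trans ?_
  simpa using sq_sum_le_card_mul_sum_sq (s := Finset.univ) (f := fun j => ‖y j‖)

theorem alg (w B : ℂ) (b D Z M q : Fin N → ℂ) (s τ : ℝ) (hs : 0 ≤ s)
    (hb : ∀ c, ‖b c‖ ^ 2 ≤ N * ∑ j, ‖q j‖ ^ 2) :
    (∑ c, ((‖b c‖ ^ 2 : ℝ) : ℂ) - ∑ c, ((‖D c‖ ^ 2 : ℝ) : ℂ) - ∑ k, conj w * Z k * D k +
      ∑ k, conj w * conj (Z k) * q k - ∑ k, w * M k * conj (q k) +
      (B - s - τ) * (‖w‖ ^ 2 : ℝ)).re ≤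
    (N ^ 2 + 2) * ∑ j, ‖q j‖ ^ 2 +
      (∑ k, (2 * ‖Z k‖ ^ 2 + ‖M k‖ ^ 2) + ‖B‖ - τ) * ‖w‖ ^ 2 := by
  simp only [add_re, sub_re, re_sum, ofReal_re, re_mul_ofReal]
  have h1 : ∑ c, ‖b c‖ ^ 2 ≤ N ^ 2 * ∑ j, ‖q j‖ ^ 2 := by
    refine (Finset.sum_le_sum fun c _ => hb c).trans (le_of_eq ?_)
    simp [sq, mul_assoc]
  have h2 : -∑ k, (conj w * Z k * D k).re ≤ ∑ k, ‖Z k‖ ^ 2 * ‖w‖ ^ 2 + ∑ c, ‖D c‖ ^ 2 := by
    rw [← Finset.sum_add_distrib, ← Finset.sum_neg_distrib]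
    refine Finset.sum_le_sum fun k _ => ?_
    have := re_le (-(conj w * Z k)) (D k)
    rw [neg_mul, neg_re, norm_neg, norm_mul, RCLike.norm_conj] at this
    linarith
  have h3 : ∑ k, (conj w * conj (Z k) * q k).re ≤ ∑ k, ‖Z k‖ ^ 2 * ‖w‖ ^ 2 + ∑ c, ‖q c‖ ^ 2 := by
    rw [← Finset.sum_add_distrib]
    refine Finset.sum_le_sum fun k _ => ?_
    have := re_le (conj w * conj (Z k)) (q k)
    rw [norm_mul, RCLike.norm_conj, RCLike.norm_conj] at this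
    linarith
  have h4 : -∑ k, (w * M k * conj (q k)).re ≤ ∑ k, ‖M k‖ ^ 2 * ‖w‖ ^ 2 + ∑ c, ‖q c‖ ^ 2 := by
    rw [← Finset.sum_add_distrib, ← Finset.sum_neg_distrib]
    refine Finset.sum_le_sum fun k _ => ?_
    have := re_le (-(w * M k)) (conj (q k))
    rw [neg_mul, neg_re, norm_neg, norm_mul, RCLike.norm_conj] at this
    linarith
  have h5 : (B.re - s - τ) * ‖w‖ ^ 2 ≤ (‖B‖ - τ) * ‖w‖ ^ 2 :=
    mul_le_mul_of_nonneg_right (by linarith [re_le_norm B]) (sq_nonneg _)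
  rw [← Finset.sum_mul] at h2 h3 h4
  rw [Finset.sum_add_distrib, ← Finset.mul_sum]
  linarith

theorem sum_hess {ρ : E N → ℝ} {z : E N} (g : E N → ℂ)
    (h : ∀ j k, ∑ c, PP ρ z j c * conj (PP ρ z k c) = PP ρ z j k) :
    ∑ c, hess g z (fun j => lc ρ c j z) = ∑ j, ∑ k, dz j (dzb k g) z * PP ρ z j k := by
  simp only [hess, lc]
  rw [Finset.sum_comm]
  refine Finset.sum_congr rfl fun j _ => ?_
  rw [Finset.sum_comm]
  refine Finset.sum_congr rfl fun k _ => ?_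
  rw [← h j k, Finset.mul_sum]
  exact Finset.sum_congr rfl fun _ _ => by ring

theorem cd_rho {ρ : E N → ℝ} (hρ : Dom ρ) {z : E N} (hz : z ∈ Reg ρ) : ContDiffAt ℝ ∞ ρ z :=
  hρ.smooth.contDiffAt (isOpen_E0.mem_nhds hz.1)

theorem Z_a (pf : StmtPF) {ρ : E N → ℝ} (hρ : Dom ρ) {z : E N} (hz : z ∈ Reg ρ) :
    ∑ k, dz k (cx ρ) z * Zc ρ k z = -(trH ρ ρ z : ℝ) := by
  obtain ⟨ho, -, -, hR, hT, -⟩ := (pf N).2.2.2 ρ hρ
  have hr := cd_rho hρ hz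
  have hl := (hR z hz).2.2.2.2.1
  rw [(hT z hz ρ hr).1, ← sum_hess _ fun j k => ((hR z hz).2.2.2.2.2.1 j k).2.2]
  simp only [Zc, Finset.mul_sum]
  rw [Finset.sum_comm, ← Finset.sum_neg_distrib]
  refine Finset.sum_congr rfl fun c _ => ?_
  have h1 : Lb (lc ρ c) (fun y => ∑ k, dz k (cx ρ) y * lc ρ c k y) z = 0 := by
    refine Lb_zero ?_
    filter_upwards [ho.mem_nhds hz] with y hy
    exact ((hR y hy).2.2.2.2.2.2.1 c).1
  rw [Lb_sum_mul (fun k => ContDiffAt.da (contDiffAt_dz k (contDiffAt_cx hr)))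
    fun k => ContDiffAt.da (hl c k)] at h1
  rw [← Lb_hess (contDiffAt_cx hr)]
  simp only [mul_comm (lc ρ c _ z)]
  linear_combination h1

theorem Z_z (pf : StmtPF) {ρ : E N → ℝ} (hρ : Dom ρ) {z : E N} (hz : z ∈ Reg ρ) :
    ∑ k, conj (z k) * Zc ρ k z = -((∑ c, ∑ k, ‖lc ρ c k z‖ ^ 2 : ℝ) : ℂ) := by
  obtain ⟨ho, -, -, hR, -⟩ := (pf N).2.2.2 ρ hρ
  have hl := (hR z hz).2.2.2.2.1
  simp only [Zc, Finset.mul_sum, ofReal_sum]
  rw [Finset.sum_comm, ← Finset.sum_neg_distrib]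
  refine Finset.sum_congr rfl fun c _ => ?_
  have h1 : Lb (lc ρ c) (fun y => ∑ k, conj (y k) * lc ρ c k y) z = 0 := by
    refine Lb_zero ?_
    filter_upwards [ho.mem_nhds hz] with y hy
    exact ((hR y hy).2.2.2.2.2.2.1 c).2.1
  rw [Lb_sum_mul (u := fun k y => conj (y k))
    (fun k => differentiableAt_conj (ContDiffAt.da (contDiff_coord k).contDiffAt))
    fun k => ContDiffAt.da (hl c k)] at h1
  simp only [Lb_coord, conj_mul'] at h1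
  push_cast
  linear_combination h1

theorem cont_G (pf : StmtPF) {ρ : E N → ℝ} (hρ : Dom ρ) {z : E N} (hz : z ∈ Reg ρ) :
    ContinuousAt (Gc ρ) z := by
  obtain ⟨-, -, -, hR, hT, -⟩ := (pf N).2.2.2 ρ hρ
  have hl := (hR z hz).2.2.2.2.1
  have hn := (hR z hz).2.2.2.1
  have hΛ := contDiffAt_cx (hT z hz ρ (cd_rho hρ hz)).2.2.1
  have hZ : ∀ k, ContDiffAt ℝ ∞ (Zc ρ k) z := fun k =>
    ContDiffAt.sum fun c _ => cd_Lb (hl c) (hl c k)
  have hB : ContDiffAt ℝ ∞ (Bc ρ) z :=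
    ((ContDiffAt.sum fun k _ => (hZ k).mul (cd_dv (hl k))).sub
      (ContDiffAt.sum fun c _ => cd_Lb (hl c) (cd_dv (hl c)))).sub
      (ContDiffAt.sum fun j _ => contDiffAt_dz j ((hn j).mul hΛ))
  refine ContinuousAt.add (tendsto_finsetSum _ fun k _ => ?_) hB.continuousAt.norm
  exact (((hZ k).continuousAt.norm.pow 2).const_mul 2).add
    ((hΛ.mul (hn k)).continuousAt.norm.pow 2)

theorem ident (pf : StmtPF) (h : StmtE2) {ρ φ : E N → ℝ} (hρ : Dom ρ) (hφ : SI ρ φ) {z : E N}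
    (hz : z ∈ Reg ρ) (t : ℝ) {f κ : ℝ → ℝ} {w : E N → ℂ} (j : ℕ)
    (hf : DifferentiableAt ℝ f (ρ z)) (hκ : DifferentiableAt ℝ κ (‖z‖ ^ 2))
    (hw : ContDiffAt ℝ ∞ w z) (hE : ∑ l, z l * dz l w z = -(j : ℂ) * w z) :
    ∑ l, dz l (FA f κ t ρ φ w l) z + ∑ l, dzb l (FB f κ t ρ φ w l) z =
      (Wt f κ t ρ φ z : ℝ) * (∑ c, ((‖Lb (lc ρ c) w z‖ ^ 2 : ℝ) : ℂ) -
        ∑ c, ((‖Dc t ρ φ c w z‖ ^ 2 : ℝ) : ℂ) - ∑ k, conj (w z) * Zc ρ k z * Dc t ρ φ k w z +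
        ∑ k, conj (w z) * conj (Zc ρ k z) * dzb k w z -
        ∑ k, w z * ((trH ρ ρ z : ℂ) * nn ρ k z) * conj (dzb k w z) +
        (Bc ρ z - ((∑ c, ∑ k, ‖lc ρ c k z‖ ^ 2) / ‖z‖ ^ 2 * j : ℝ) - (t * trH ρ φ z : ℝ)) *
          (‖w z‖ ^ 2 : ℝ)) -
      (deriv f (ρ z) * κ (‖z‖ ^ 2) * Real.exp (t * φ z) * trH ρ ρ z * ‖w z‖ ^ 2 : ℝ) := by
  obtain ⟨ho, hc, h0, hR, hT, -⟩ := (pf N).2.2.2 ρ hρ
  obtain ⟨hA, -, -, hn, hl, hP, hO, -⟩ := hR z hz
  have hr := cd_rho hρ hz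
  have hp : ContDiffAt ℝ ∞ φ z := hφ.1.contDiffAt (ho.mem_nhds hz)
  have hpc := contDiffAt_cx hp
  have hΛ := contDiffAt_cx (hT z hz ρ hr).2.2.1
  obtain ⟨hW, hdW⟩ := dz_Wt t (hr.differentiableAt (by simp)) (hp.differentiableAt (by simp)) hf hκ
  have hWc : DifferentiableAt ℝ (fun y => ((Wt f κ t ρ φ y : ℝ) : ℂ)) z :=
    ofRealCLM.differentiableAt.comp z hW
  have hwc := contDiffAt_conj hw
  have hσ : ∀ c, ContDiffAt ℝ ∞ (fun y => dv (lc ρ c) y + t * Lf (lc ρ c) (cx φ) y) z := fun c =>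
    (cd_dv (hl c)).add (contDiffAt_const.mul (cd_Lf (hl c) hpc))
  have hEφ : ∑ l, z l * dz l (cx φ) z = 0 := by
    have := (((pf N).1 (Reg ρ) 0 0 (cx φ) ho hc fun c hc0 y _ => by simp [cx, hφ.2 c hc0 y]).2 z hz
      (ContDiffAt.da hpc)).1
    simpa using this
  -- the two sums of fluxes
  have eA : ∀ l, dz l (FA f κ t ρ φ w l) z =
      ∑ c, dz l (fun y => (Wt f κ t ρ φ y : ℝ) *
        (lc ρ c l y * (conj (w y) * Lb (lc ρ c) w y))) z -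
      dz l (fun y => (Wt f κ t ρ φ y : ℝ) * (nn ρ l y * (trH ρ ρ y : ℝ) * (w y * conj (w y)))) z := by
    intro l
    have d1 : ∀ c, DifferentiableAt ℝ (fun y => (Wt f κ t ρ φ y : ℝ) *
        (lc ρ c l y * (conj (w y) * Lb (lc ρ c) w y))) z := fun c =>
      hWc.fun_mul (ContDiffAt.da ((hl c l).mul (hwc.mul (cd_Lb (hl c) hw))))
    rw [← dz_sum l _ fun c _ => d1 c, ← dz_sub l (DifferentiableAt.fun_sum fun c _ => d1 c)
      (hWc.fun_mul (ContDiffAt.da (((hn l).mul hΛ).mul (hw.mul hwc))))]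
    congr 1
    funext y
    simp only [FA, mul_sub, Finset.mul_sum]
  have eB : ∀ l, dzb l (FB f κ t ρ φ w l) z =
      -∑ c, dzb l (fun y => (Wt f κ t ρ φ y : ℝ) * (conj (lc ρ c l y) * (conj (w y) *
        (Lf (lc ρ c) w y + (dv (lc ρ c) y + t * Lf (lc ρ c) (cx φ) y) * w y)))) z := by
    intro l
    have d1 : ∀ c, DifferentiableAt ℝ (fun y => (Wt f κ t ρ φ y : ℝ) * (conj (lc ρ c l y) *
        (conj (w y) * (Lf (lc ρ c) w y + (dv (lc ρ c) y + t * Lf (lc ρ c) (cx φ) y) * w y)))) z :=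
      fun c => hWc.fun_mul (ContDiffAt.da ((contDiffAt_conj (hl c l)).mul
        (hwc.mul ((cd_Lf (hl c) hw).add ((hσ c).mul hw)))))
    rw [← dzb_sum l _ fun c _ => d1 c, ← neg_one_mul,
      ← dzb_const_mul l _ (DifferentiableAt.fun_sum fun c _ => d1 c)]
    congr 1
    funext y
    simp only [FB, Dc, Finset.mul_sum, neg_one_mul, Finset.sum_neg_distrib]
  have hx : ∀ x : Fin N → ℂ, ∑ j, x j * dz j (cx (Wt f κ t ρ φ)) z =
      (deriv f (ρ z) * κ (‖z‖ ^ 2) * Real.exp (t * φ z) : ℝ) * ∑ j, x j * dz j (cx ρ) z +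
      (f (ρ z) * deriv κ (‖z‖ ^ 2) * Real.exp (t * φ z) : ℝ) * ∑ j, x j * conj (z j) +
      t * (∑ j, x j * dz j (cx φ) z) * Wt f κ t ρ φ z := by
    intro x
    simp only [hdW, Finset.mul_sum, Finset.sum_mul, ← Finset.sum_add_distrib]
    exact Finset.sum_congr rfl fun _ _ => by ring
  -- the tangential part
  have e2 := fun c => h N (lc ρ c) _ w (Wt f κ t ρ φ) z (hl c) hw (ContDiffAt.da (hσ c)) hW (by
    have o1 : ∑ j, lc ρ c j z * dz j (cx ρ) z = 0 := by simpa only [mul_comm, lc] using (hO c).1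
    have o2 : ∑ j, lc ρ c j z * conj (z j) = 0 := by simpa only [mul_comm, lc] using (hO c).2.1
    rw [Lf, hx, o1, o2, Lf]
    ring)
  simp only [Lb_sigma _ (hl _) hpc] at e2
  have e3 := Finset.sum_congr (s₁ := Finset.univ) rfl fun c _ => e2 c
  have z1 : ∀ g : Fin N → ℂ, ∑ c, ∑ k, Lb (lc ρ c) (lc ρ c k) z * g k = ∑ k, Zc ρ k z * g k := by
    intro g
    rw [Finset.sum_comm]
    simp only [Zc, Finset.sum_mul]
  have z2 : ∑ c, ∑ k, conj (Lb (lc ρ c) (lc ρ c k) z) * dzb k w z =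
      ∑ k, conj (Zc ρ k z) * dzb k w z := by
    rw [Finset.sum_comm]
    simp only [Zc, Finset.sum_mul, map_sum]
  simp only [Finset.sum_sub_distrib, ← Finset.mul_sum, Finset.sum_add_distrib, ← Finset.sum_mul,
    z1, z2, sum_hess _ fun j k => (hP j k).2.2, ← (hT z hz φ hp).1] at e3
  -- the normal part
  have n1 : ∑ j, nn ρ j z * dz j (cx ρ) z = 1 := by
    have hA' : ((an ρ z : ℝ) : ℂ) ≠ 0 := ofReal_ne_zero.2 hA.ne'
    simp only [nn, div_mul_eq_mul_div, ← Finset.sum_div, conj_mul']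
    rw [div_eq_one_iff_eq hA', an]
    push_cast
    rfl
  have n2 : ∑ j, nn ρ j z * conj (z j) = 0 := by
    have := congrArg conj (h0 z hz.1).1
    simp only [map_sum, map_mul, map_zero] at this
    simp only [nn, div_mul_eq_mul_div, ← Finset.sum_div, mul_comm (conj (dz _ (cx ρ) z)), this,
      zero_div]
  have eN : ∑ l, dz l (fun y => (Wt f κ t ρ φ y : ℝ) *
      (nn ρ l y * (trH ρ ρ y : ℝ) * (w y * conj (w y)))) z =
      (∑ l, nn ρ l z * dz l (cx (Wt f κ t ρ φ)) z) * (trH ρ ρ z : ℝ) * (w z * conj (w z)) +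
      (Wt f κ t ρ φ z : ℝ) *
        ((∑ l, dz l (fun y => nn ρ l y * (trH ρ ρ y : ℝ)) z) * (w z * conj (w z)) +
          (trH ρ ρ z : ℝ) * conj (w z) * ∑ l, nn ρ l z * dz l w z +
          ∑ k, w z * ((trH ρ ρ z : ℂ) * nn ρ k z) * conj (dzb k w z)) := by
    simp only [Finset.mul_sum, Finset.sum_mul, ← Finset.sum_add_distrib]
    refine Finset.sum_congr rfl fun l _ => ?_
    rw [dz_mul l hWc (ContDiffAt.da (((hn l).mul hΛ).mul (hw.mul hwc))),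
      dz_mul l (ContDiffAt.da ((hn l).mul hΛ)) (ContDiffAt.da (hw.mul hwc)),
      dz_mul l (ContDiffAt.da hw) (ContDiffAt.da hwc), dz_conj]
    ring
  rw [hx, n1, n2] at eN
  have s1 := split ρ z (fun k => Zc ρ k z) fun k => dz k w z
  have s2 := split ρ z (fun k => Zc ρ k z) fun k => dz k (cx φ) z
  rw [Z_a pf hρ hz, Z_z pf hρ hz] at s1 s2
  rw [hE] at s1
  rw [hEφ] at s2
  have s3 : ∑ k, conj (w z) * Zc ρ k z * Dc t ρ φ k w z =
      conj (w z) * (∑ k, Zc ρ k z * ∑ j, PP ρ z j k * dz j w z +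
        (∑ k, Zc ρ k z * dv (lc ρ k) z +
          t * ∑ k, Zc ρ k z * ∑ j, PP ρ z j k * dz j (cx φ) z) * w z) := by
    rw [add_mul, Finset.mul_sum, Finset.sum_mul, Finset.sum_mul, ← Finset.sum_add_distrib,
      ← Finset.sum_add_distrib, Finset.mul_sum]
    refine Finset.sum_congr rfl fun k _ => ?_
    simp only [Dc, Lf, lc]
    ring
  have s4 : ∑ k, conj (w z) * conj (Zc ρ k z) * dzb k w z =
      conj (w z) * ∑ k, conj (Zc ρ k z) * dzb k w z := by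
    simp only [Finset.mul_sum, mul_assoc]
  have s5 : ((‖w z‖ ^ 2 : ℝ) : ℂ) = w z * conj (w z) := by rw [mul_conj']; push_cast; rfl
  simp only [eA, eB, Finset.sum_sub_distrib, Finset.sum_neg_distrib]
  rw [Finset.sum_comm, Finset.sum_comm (f := fun l c => dzb l _ z), eN, s3, s4, Bc,
    ofReal_mul _ (‖w z‖ ^ 2), s5]
  simp only [Dc]
  simp only [ofReal_mul, ofReal_div, ofReal_natCast] at *
  linear_combination e3 - (Wt f κ t ρ φ z : ℝ) * conj (w z) * s1 -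
    (Wt f κ t ρ φ z : ℝ) * conj (w z) * w z * t * s2

theorem e3 (L : Lv0) (h : StmtE2) : StmtE3 := by
  intro N ρ φ hρ hφ K hK hc
  obtain ⟨C, hC⟩ := hc.bddAbove_image (f := Gc ρ)
    fun z hz => (cont_G L.pf hρ (hK hz)).continuousWithinAt
  refine ⟨max C (N ^ 2 + 2), fun t f κ w j z hz hf hκ hf0 hκ0 hw hE => ?_⟩
  obtain ⟨-, -, -, hR, -⟩ := (L.pf N).2.2.2 ρ hρ
  rw [ident L.pf h hρ hφ (hK hz) t j hf hκ hw hE, sub_re, re_ofReal_mul, ofReal_re]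
  refine sub_le_sub_right (mul_le_mul_of_nonneg_left ?_ ?_) _
  · refine (alg (w z) (Bc ρ z) (fun c => Lb (lc ρ c) w z) (fun c => Dc t ρ φ c w z)
      (fun k => Zc ρ k z) (fun k => (trH ρ ρ z : ℂ) * nn ρ k z) (fun k => dzb k w z)
      ((∑ c, ∑ k, ‖lc ρ c k z‖ ^ 2) / ‖z‖ ^ 2 * j) (t * trH ρ φ z) (by positivity)
      fun c => sq_le (fun k => lc ρ c k z) (fun k => dzb k w z) fun k =>
        ((hR z (hK hz)).2.2.2.2.2.1 k c).2.1).trans ?_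
    have h1 : Gc ρ z ≤ max C (N ^ 2 + 2) := (hC ⟨z, hz, rfl⟩).trans (le_max_left _ _)
    have h2 : ((N : ℝ) ^ 2 + 2) * ∑ l, ‖dzb l w z‖ ^ 2 ≤
        max C (N ^ 2 + 2) * ∑ l, ‖dzb l w z‖ ^ 2 :=
      mul_le_mul_of_nonneg_right (le_max_right _ _) (by positivity)
    have h3 := mul_le_mul_of_nonneg_right h1 (sq_nonneg ‖w z‖)
    rw [Gc] at h3
    linarith
  · exact mul_nonneg (mul_nonneg hf0 hκ0) (Real.exp_pos _).le

end

end Pool.Agent.MP_fcd29e_an.H40
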