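import Pool.Agent.MP_fcd29e_an.H81.Spec2

/-! Row FL: flat functions. -/

set_option autoImplicit false

open Pool.Agent.MP_fcd29e_an.H81 MeasureTheory Complex Set Filter Topology Metric
open scoped ContDiff ComplexConjugate ENNReal NNReal

namespace Pool.Agent.MP_fcd29e_an.H40

noncomputable section

variable {N : ℕ} {K U : Set (E N)}

theorem fl_zero {T : ℕ} {F : E N → ℂ} (h : Fl K T F) : ∀ z ∈ K, F z = 0 := by
  cases T with
  | zero => exact h
  | succ T => exact h.1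

theorem fl_pred {T : ℕ} : ∀ {F : E N → ℂ}, Fl K (T + 1) F → Fl K T F := by
  induction T with
  | zero => exact fun h => h.1
  | succ T ih => exact fun h => ⟨h.1, fun v => ih (h.2 v)⟩

theorem fl_mono {T i : ℕ} {F : E N → ℂ} (h : Fl K T F) (hi : i ≤ T) : Fl K i F := by
  induction hi with
  | refl => exact h
  | step _ ih => exact ih (fl_pred h)

theorem fl_congr {T : ℕ} : ∀ {F G : E N → ℂ}, Fl K T F → (∀ z ∈ K, F =ᶠ[𝓝 z] G) → Fl K T G := by
  induction T with
  | zero => exact fun h e z hz => (e z hz).eq_of_nhds.symm.trans (h z hz)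
  | succ T ih =>
    refine fun h e => ⟨fun z hz => (e z hz).eq_of_nhds.symm.trans (h.1 z hz), fun v =>
      ih (h.2 v) fun z hz => ?_⟩
    filter_upwards [(e z hz).fderiv (𝕜 := ℝ)] with y hy
    rw [hy]

theorem fl_const (T : ℕ) : Fl K T fun _ : E N => (0 : ℂ) := by
  induction T with
  | zero => exact fun _ _ => rfl
  | succ T ih => exact ⟨fun _ _ => rfl, fun v => by simpa using ih⟩

/-- Smooth at all points of `U`. -/
def Sm (U : Set (E N)) (F : E N → ℂ) : Prop := ∀ z ∈ U, ContDiffAt ℝ ∞ F z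

theorem Sm.fd {F : E N → ℂ} (h : Sm U F) (v : E N) : Sm U fun z => fderiv ℝ F z v :=
  fun z hz => contDiffAt_fderiv_apply (h z hz) v

theorem Sm.mul {F G : E N → ℂ} (h : Sm U F) (h' : Sm U G) : Sm U fun z => F z * G z :=
  fun z hz => (h z hz).mul (h' z hz)

theorem Sm.const (c : ℂ) : Sm U fun _ => c := fun _ _ => contDiffAt_const

theorem Sm.sum {ι : Type} {s : Finset ι} {F : ι → E N → ℂ} (h : ∀ i ∈ s, Sm U (F i)) :
    Sm U fun z => ∑ i ∈ s, F i z := fun z hz => ContDiffAt.sum fun i hi => h i hi z hz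

section
variable (hU : IsOpen U) (hK : K ⊆ U)
include hU hK

theorem fl_congrU {T : ℕ} {F G : E N → ℂ} (h : Fl K T F) (e : ∀ z ∈ U, G z = F z) : Fl K T G :=
  fl_congr h fun z hz => by
    filter_upwards [hU.mem_nhds (hK hz)] with y hy using (e y hy).symm

theorem fl_add {T : ℕ} : ∀ {F G : E N → ℂ}, Sm U F → Sm U G → Fl K T F → Fl K T G →
    Fl K T fun z => F z + G z := by
  induction T with
  | zero => exact fun _ _ h h' z hz => by simp only [h z hz, h' z hz, add_zero]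
  | succ T ih =>
    refine fun sF sG h h' => ⟨fun z hz => by simp only [h.1 z hz, h'.1 z hz, add_zero], fun v =>
      fl_congrU hU hK (ih (sF.fd v) (sG.fd v) (h.2 v) (h'.2 v)) fun z hz => ?_⟩
    rw [fderiv_fun_add (ContDiffAt.da (sF z hz)) (ContDiffAt.da (sG z hz))]
    rfl

theorem fl_mul {T : ℕ} : ∀ {F G : E N → ℂ}, Sm U F → Sm U G → Fl K T F →
    Fl K T fun z => G z * F z := by
  induction T with
  | zero => exact fun _ _ h z hz => by simp only [h z hz, mul_zero]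
  | succ T ih =>
    refine fun sF sG h => ⟨fun z hz => by simp only [h.1 z hz, mul_zero], fun v =>
      fl_congrU hU hK (fl_add hU hK (sG.mul (sF.fd v)) ((sG.fd v).mul sF)
        (ih (sF.fd v) sG (h.2 v)) (ih sF (sG.fd v) (fl_pred h))) fun z hz => ?_⟩
    rw [fderiv_fun_mul (ContDiffAt.da (sG z hz)) (ContDiffAt.da (sF z hz))]
    simp only [_root_.add_apply, _root_.smul_apply, smul_eq_mul]
    ring

theorem fl_sum {T : ℕ} {ι : Type} (s : Finset ι) {F : ι → E N → ℂ}
    (h : ∀ i ∈ s, Sm U (F i) ∧ Fl K T (F i)) : Fl K T fun z => ∑ i ∈ s, F i z := by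
  classical
  induction s using Finset.induction_on with
  | empty => simpa using fl_const T
  | insert a s ha ih =>
    simp only [Finset.sum_insert ha]
    exact fl_add hU hK (h a (by simp)).1 (Sm.sum fun i hi => (h i (by simp [hi])).1)
      (h a (by simp)).2 (ih fun i hi => h i (by simp [hi]))

theorem fl_comb {T : ℕ} {F : E N → ℂ} (sF : Sm U F) (h : Fl K (T + 1) F) (a b : ℂ) (u v : E N) :
    Fl K T fun z => a * fderiv ℝ F z u + b * fderiv ℝ F z v :=
  fl_add hU hK ((Sm.const a).mul (sF.fd u)) ((Sm.const b).mul (sF.fd v))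
    (fl_mul hU hK (sF.fd u) (Sm.const a) (h.2 u)) (fl_mul hU hK (sF.fd v) (Sm.const b) (h.2 v))

theorem fl_pow {s : E N → ℂ} (hs : Sm U s) (h : ∀ z ∈ K, s z = 0) (T : ℕ) :
    Fl K T fun z => s z ^ (T + 1) := by
  induction T with
  | zero => exact fun z hz => by simp [h z hz]
  | succ T ih =>
    refine ⟨fun z hz => by simp [h z hz], fun v => fl_congrU hU hK
      (fl_mul hU hK (fun z hz => (hs z hz).pow _) ((Sm.const (T + 2 : ℂ)).mul (hs.fd v)) ih)
      fun z hz => ?_⟩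
    rw [fderiv_comp_hol (h := fun x => x ^ (T + 1 + 1)) (ContDiffAt.da (hs z hz))
      (hasDerivAt_pow _ _)]
    simp only [Nat.add_sub_cancel]
    push_cast
    ring

theorem fl_tan {ρ : E N → ℝ} (hT : Thick ρ K) {ι : Type} [Fintype ι] {x : ι → E N → ℂ}
    (b : ι → E N) (hx : ∀ i, Sm U (x i))
    (h0 : ∀ p ∈ K, ∀ A : E N →L[ℝ] ℂ, (∀ v, fderiv ℝ ρ p v = 0 → A v = 0) →
      ∑ i, x i p * A (b i) = 0) {T : ℕ} :
    ∀ {F : E N → ℂ}, Sm U F → Fl K T F → Fl K T fun z => ∑ i, x i z * fderiv ℝ F z (b i) := by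
  have key : ∀ {F : E N → ℂ}, Sm U F → (∀ z ∈ K, F z = 0) → ∀ z ∈ K,
      ∑ i, x i z * fderiv ℝ F z (b i) = 0 := fun sF h z hz =>
    h0 z hz _ (hT z hz _ (sF z (hK hz)) (Eventually.of_forall h))
  induction T with
  | zero => exact fun sF h => key sF h
  | succ T ih =>
    intro F sF h
    refine ⟨key sF h.1, fun v => fl_congrU hU hK (fl_add hU hK
      (Sm.sum fun i _ => (hx i).mul ((sF.fd v).fd _))
      (Sm.sum fun i _ => ((hx i).fd v).mul (sF.fd _)) (ih (sF.fd v) (h.2 v))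
      (fl_sum hU hK Finset.univ fun i _ => ⟨((hx i).fd v).mul (sF.fd (b i)),
        fl_mul hU hK (sF.fd _) ((hx i).fd v) (h.2 _)⟩)) fun z hz => ?_⟩
    rw [fderiv_fun_sum fun i _ => ContDiffAt.da (((hx i).mul (sF.fd _)) z hz),
      _root_.sum_apply, ← Finset.sum_add_distrib]
    refine Finset.sum_congr rfl fun i _ => ?_
    rw [fderiv_fun_mul (ContDiffAt.da (hx i z hz)) (ContDiffAt.da (sF.fd _ z hz))]
    simp only [_root_.add_apply, _root_.smul_apply, smul_eq_mul,
      fderiv_comm (sF z hz) v]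
    ring

end

theorem fderiv_cx {r : E N → ℝ} {z : E N} (hr : DifferentiableAt ℝ r z) (v : E N) :
    fderiv ℝ (cx r) z v = (fderiv ℝ r z v : ℝ) :=
  congrArg (fun A : E N →L[ℝ] ℂ => A v) (ofRealCLM.hasFDerivAt.comp z hr.hasFDerivAt).fderiv

theorem kill {ρ : E N → ℝ} {p : E N} (hr : DifferentiableAt ℝ ρ p) (h1 : fderiv ℝ ρ p ≠ 0)
    (hA : 0 < an ρ p) (A : E N →L[ℝ] ℂ) (h : ∀ v, fderiv ℝ ρ p v = 0 → A v = 0) (v : E N) :
    A v = fderiv ℝ (cx ρ) p v * ∑ j, conj (nn ρ j p) * ((A (ee j) + I * A (I • ee j)) / 2) := by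
  obtain ⟨u, hu⟩ : ∃ u, fderiv ℝ ρ p u ≠ 0 := by
    by_contra hc
    exact h1 (ContinuousLinearMap.ext fun u => by_contra fun h' => hc ⟨u, h'⟩)
  obtain ⟨c, hc⟩ : ∃ c : ℂ, ∀ v, A v = fderiv ℝ (cx ρ) p v * c := by
    refine ⟨A u / (fderiv ℝ ρ p u : ℝ), fun v => ?_⟩
    have := h (v - (fderiv ℝ ρ p v / fderiv ℝ ρ p u) • u) (by
      rw [map_sub, map_smul, smul_eq_mul, div_mul_cancel₀ _ hu, sub_self])
    rw [map_sub, map_smul, real_smul, sub_eq_zero] at this
    rw [this, fderiv_cx hr]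
    push_cast
    ring
  have n1 : ∑ j, conj (nn ρ j p) * dzb j (cx ρ) p = 1 := by
    have hA' : ((an ρ p : ℝ) : ℂ) ≠ 0 := ofReal_ne_zero.2 hA.ne'
    simp only [nn, dzb_cx, map_div₀, conj_conj, conj_ofReal, div_mul_eq_mul_div, ← Finset.sum_div,
      mul_conj']
    rw [div_eq_one_iff_eq hA', an]
    push_cast
    rfl
  rw [hc v]
  congr 1
  rw [← one_mul c, ← n1, Finset.sum_mul]
  refine Finset.sum_congr rfl fun j _ => ?_
  rw [hc, hc, dzb]
  ring

theorem fl (L : Lv0) : StmtFL := by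
  intro N K U hU hK
  have sm : ∀ {F : E N → ℂ}, ContDiffOn ℝ ∞ F U → Sm U F := fun h z hz =>
    h.contDiffAt (hU.mem_nhds hz)
  refine ⟨fun T F h => ⟨fun i hi => fl_mono h hi, fl_zero h, fun G e => fl_congr h e,
    fun sF G sG => ⟨fl_mul hU hK (sm sF) (sm sG) h, fun h' =>
      ⟨fl_add hU hK (sm sF) (sm sG) h h', ?_⟩⟩⟩,
    fun T F h => fl_congr (fl_const T) fun z hz => (h z hz).symm,
    fun T ι s F h => fl_sum hU hK s fun i hi => ⟨sm (h i hi).1, (h i hi).2⟩,
    fun T F j sF h => ⟨?_, ?_⟩, fun T s hs h => fl_pow hU hK (sm hs) h T, ?_⟩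
  · refine fl_congrU hU hK (fl_add hU hK (sm sF) ((Sm.const (-1)).mul (sm sG)) h
      (fl_mul hU hK (sm sG) (Sm.const (-1)) h')) fun z _ => by ring
  · refine fl_congrU hU hK (fl_comb hU hK (sm sF) h (1 / 2) (-I / 2) (ee j) (I • ee j))
      fun z _ => ?_
    rw [dz]; ring
  · refine fl_congrU hU hK (fl_comb hU hK (sm sF) h (1 / 2) (I / 2) (ee j) (I • ee j))
      fun z _ => ?_
    rw [dzb]; ring
  intro ρ hρ hR hKS hT T ι _ m r Z hm hr hZ h0 hL
  obtain ⟨-, -, -, hP, -⟩ := (L.pf N).2.2.2 ρ hρ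
  have sρ0 : ∀ z ∈ U, ContDiffAt ℝ ∞ ρ z := fun z hz =>
    hρ.smooth.contDiffAt (isOpen_E0.mem_nhds (hR hz).1)
  have sρ : Sm U (cx ρ) := fun z hz => contDiffAt_cx (sρ0 z hz)
  have sn : ∀ j, Sm U fun z => conj (nn ρ j z) := fun j z hz =>
    contDiffAt_conj ((hP z (hR hz)).2.2.2.1 j)
  have sp : Sm U fun z => (ρ z : ℂ) ^ (T + 1) := fun z hz => (sρ z hz).pow _
  have fp : Fl K T fun z => (ρ z : ℂ) ^ (T + 1) :=
    fl_pow hU hK sρ (fun z hz => by simp [cx, hKS.bd z hz]) T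
  have main : ∀ n, n ≤ T + 1 → ∀ i, Fl K n (m i) := by
    intro n
    induction n with
    | zero => exact fun _ => h0
    | succ n ih =>
      intro hn i
      refine ⟨h0 i, fun v => ?_⟩
      have ih' := ih (by omega)
      let x : Unit ⊕ Fin N ⊕ Fin N → E N → ℂ := Sum.elim (fun _ _ => 1) (Sum.elim
        (fun j z => (-1 / 2) * (fderiv ℝ (cx ρ) z v * conj (nn ρ j z)))
        fun j z => (-I / 2) * (fderiv ℝ (cx ρ) z v * conj (nn ρ j z)))
      let b : Unit ⊕ Fin N ⊕ Fin N → E N := Sum.elim (fun _ => v) (Sum.elim ee fun j => I • ee j)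
      have hx : ∀ k, Sm U (x k) := by
        rintro (_ | j | j)
        · exact Sm.const 1
        · exact (Sm.const _).mul ((sρ.fd v).mul (sn j))
        · exact (Sm.const _).mul ((sρ.fd v).mul (sn j))
      have e : ∀ z (A : E N →L[ℝ] ℂ), ∑ k, x k z * A (b k) = A v - fderiv ℝ (cx ρ) z v *
          ∑ j, conj (nn ρ j z) * ((A (ee j) + I * A (I • ee j)) / 2) := by
        intro z A
        simp only [x, b, Fintype.sum_sum_type, Sum.elim_inl, Sum.elim_inr, Finset.univ_unique,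
          Finset.sum_singleton, one_mul, ← Finset.sum_add_distrib, Finset.mul_sum, sub_eq_add_neg,
          ← Finset.sum_neg_distrib]
        congr 1
        exact Finset.sum_congr rfl fun _ _ => by ring
      have t1 := fl_tan hU hK hT b hx (fun p hp A hA => by
        rw [e, ← kill ((sρ0 p (hK hp)).differentiableAt (by simp)) (hR (hK hp)).2
          (hP p (hR (hK hp))).1 A hA, sub_self]) (sm (hm i)) (ih' i)
      have s2 : Sm U fun z => ∑ l, Z i l z * m l z := Sm.sum fun l _ => (sm (hZ i l)).mul (sm (hm l))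
      have s3 := (sm (hr i)).mul sp
      have t2 := fl_mul hU hK (fun z hz => (s2 z hz).add (s3 z hz)) (sρ.fd v) (fl_add hU hK s2 s3
        (fl_sum hU hK _ fun l _ => ⟨(sm (hZ i l)).mul (sm (hm l)),
          fl_mul hU hK (sm (hm l)) (sm (hZ i l)) (ih' l)⟩)
        (fl_mul hU hK sp (sm (hr i)) (fl_mono fp (by omega))))
      refine fl_congrU hU hK (fl_add hU hK (Sm.sum fun k _ => (hx k).mul ((sm (hm i)).fd _))
        ((sρ.fd v).mul fun z hz => (s2 z hz).add (s3 z hz)) t1 t2) fun z hz => ?_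
      have := hL i z hz
      simp only [Lb, dzb] at this
      rw [e, this]
      ring
  exact main _ le_rfl

end

end Pool.Agent.MP_fcd29e_an.H40
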